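import Mathlib

/-!
# Belyi's theorem for polynomials (helper79)

For every finite set `B` of algebraic numbers there is a non-constant polynomial over `ℚ` which maps
`B` to `{0, 1}` and has no critical values outside `{0, 1}`.
-/

set_option autoImplicit false

namespace Pool.Agent.Work.MP_298761_h79

open Polynomial

/-- critical values of a composition -/
theorem crit_comp (P Q : ℚ[X]) (Z : Set ℂ) (hQ : ∀ c : ℂ, aeval c (derivative Q) = 0 → aeval (aeval c Q) P ∈ Z)
    (hP : ∀ c : ℂ, aeval c (derivative P) = 0 → aeval c P ∈ Z) (c : ℂ)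
    (hc : aeval c (derivative (P.comp Q)) = 0) : aeval c (P.comp Q) ∈ Z := by
  rw [derivative_comp, map_mul, aeval_comp, mul_eq_zero] at hc
  rw [aeval_comp]
  rcases hc with hc | hc
  · exact hQ c hc
  · exact hP _ hc

/-- the polynomial `(a + b) ^ (a + b) / (a ^ a b ^ b) Y ^ a (1 - Y) ^ b` -/
noncomputable def bel (a b : ℕ) : ℚ[X] :=
  C (((a + b : ℕ) : ℚ) ^ (a + b) / ((a : ℚ) ^ a * (b : ℚ) ^ b)) * (X ^ a * (1 - X) ^ b)

theorem bel_zero {a b : ℕ} (ha : a ≠ 0) : (bel a b).eval 0 = 0 := by
  simp [bel, ha]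

theorem bel_one {a b : ℕ} (hb : b ≠ 0) : (bel a b).eval 1 = 0 := by
  simp [bel, hb]

theorem bel_mid {K : Type*} [Field K] [CharZero K] {a b : ℕ} (ha : a ≠ 0) (hb : b ≠ 0) (y : K)
    [Algebra ℚ K] (hy : (a : K) * (1 - y) = b * y) : aeval y (bel a b) = 1 := by
  have ha' : (a : K) ≠ 0 := by exact_mod_cast ha
  have hb' : (b : K) ≠ 0 := by exact_mod_cast hb
  have hab : (a : K) + b ≠ 0 := by
    have : ((a + b : ℕ) : K) ≠ 0 := by exact_mod_cast (by omega : a + b ≠ 0)
    rwa [Nat.cast_add] at this
  have hy1 : y = a / (a + b) := by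
    rw [eq_div_iff hab]
    linear_combination -hy
  have hy2 : 1 - y = b / (a + b) := by
    rw [hy1]
    field_simp
    ring
  have h1 : aeval y (bel a b) = (((a : K) + b) ^ (a + b) / ((a : K) ^ a * (b : K) ^ b)) *
      (y ^ a * (1 - y) ^ b) := by
    simp [bel]
  rw [h1, hy2, hy1, div_pow, div_pow, pow_add]
  field_simp

theorem bel_crit {a b : ℕ} (ha : a ≠ 0) (hb : b ≠ 0) (c : ℂ)
    (hc : aeval c (derivative (bel a b)) = 0) : aeval c (bel a b) = 0 ∨ aeval c (bel a b) = 1 := by
  have hC : ((((a + b : ℕ) : ℚ) ^ (a + b) / ((a : ℚ) ^ a * (b : ℚ) ^ b) : ℚ) : ℂ) ≠ 0 := by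
    have ha' : (a : ℚ) ≠ 0 := by exact_mod_cast ha
    have hb' : (b : ℚ) ≠ 0 := by exact_mod_cast hb
    have hab : ((a + b : ℕ) : ℚ) ≠ 0 := by exact_mod_cast (by omega : a + b ≠ 0)
    exact_mod_cast div_ne_zero (pow_ne_zero _ hab) (mul_ne_zero (pow_ne_zero _ ha') (pow_ne_zero _ hb'))
  obtain ⟨i, rfl⟩ := Nat.exists_eq_succ_of_ne_zero ha
  obtain ⟨j, rfl⟩ := Nat.exists_eq_succ_of_ne_zero hb
  have h1 : aeval c (derivative (bel (i + 1) (j + 1))) =
      ((((((i + 1) + (j + 1) : ℕ) : ℚ) ^ ((i + 1) + (j + 1)) / (((i + 1 : ℕ) : ℚ) ^ (i + 1) *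
        ((j + 1 : ℕ) : ℚ) ^ (j + 1)) : ℚ) : ℂ)) *
        (c ^ i * (1 - c) ^ j * (((i + 1 : ℕ) : ℂ) * (1 - c) - ((j + 1 : ℕ) : ℂ) * c)) := by
    rw [bel, derivative_C_mul, derivative_mul, derivative_X_pow, derivative_pow, derivative_sub,
      derivative_one, derivative_X]
    simp only [map_mul, map_add, map_sub, map_pow, map_one, aeval_X, aeval_C, map_natCast,
      zero_sub, map_neg, Nat.add_sub_cancel, eq_ratCast]
    push_cast
    ring
  rw [Nat.succ_eq_add_one, Nat.succ_eq_add_one, h1] at hc
  rcases mul_eq_zero.mp hc with h | h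
  · exact absurd h hC
  · rcases mul_eq_zero.mp h with h | h
    · left
      rcases mul_eq_zero.mp h with h | h
      · have hc0 : c = 0 := by
          by_contra hne
          exact (pow_ne_zero _ hne) h
        simp [bel, hc0]
      · have hc0 : 1 - c = 0 := by
          by_contra hne
          exact (pow_ne_zero _ hne) h
        simp [bel, hc0]
    · right
      exact bel_mid (by omega) (by omega) c (sub_eq_zero.mp h)

/-- finite sets of rational numbers -/
theorem belyi_rat (n : ℕ) : ∀ B : Finset ℚ, B.card ≤ n → ∃ P : ℚ[X], 0 < P.natDegree ∧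
    (∀ b ∈ B, P.eval b = 0 ∨ P.eval b = 1) ∧
    ∀ c : ℂ, aeval c (derivative P) = 0 → aeval c P ∈ ({0, 1} : Set ℂ) := by
  induction n using Nat.strong_induction_on with
  | _ n ih =>
  intro B hB
  by_cases hc : B.card ≤ 2
  · -- at most two elements
    obtain ⟨α, β, hαβ, hsub⟩ : ∃ α β : ℚ, α ≠ β ∧ B ⊆ {α, β} := by
      rcases Nat.lt_or_ge B.card 1 with h0 | h1
      · have hB0 : B = ∅ := Finset.card_eq_zero.mp (by omega)
        exact ⟨0, 1, by norm_num, by rw [hB0]; exact Finset.empty_subset _⟩
      · rcases Nat.lt_or_ge B.card 2 with h2 | h2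
        · obtain ⟨α, hα⟩ := Finset.card_eq_one.mp (by omega : B.card = 1)
          exact ⟨α, α + 1, by simp, by rw [hα]; simp⟩
        · obtain ⟨α, β, h, hα⟩ := Finset.card_eq_two.mp (by omega : B.card = 2)
          exact ⟨α, β, h, by rw [hα]⟩
    have hβα : β - α ≠ 0 := sub_ne_zero.mpr hαβ.symm
    refine ⟨C (β - α)⁻¹ * (X - C α), ?_, ?_, ?_⟩
    · rw [natDegree_C_mul (inv_ne_zero hβα), natDegree_X_sub_C]
      exact Nat.one_pos
    · intro b hb
      have hb' := hsub hb
      rw [Finset.mem_insert, Finset.mem_singleton] at hb'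
      rcases hb' with rfl | rfl
      · left; simp
      · right; simp [hβα]
    · intro c hc
      exfalso
      rw [derivative_C_mul, derivative_sub, derivative_X, derivative_C, sub_zero, mul_one,
        aeval_C] at hc
      have : ((β - α)⁻¹ : ℚ) = 0 := by
        have h3 : (algebraMap ℚ ℂ) ((β - α)⁻¹) = (algebraMap ℚ ℂ) 0 := by rw [hc, map_zero]
        exact (algebraMap ℚ ℂ).injective h3
      exact inv_ne_zero hβα this
  · push Not at hc
    -- three elements
    have hne : B.Nonempty := Finset.card_pos.mp (by omega)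
    set α := B.min' hne with hα
    set β := B.max' hne with hβ
    have hαB : α ∈ B := Finset.min'_mem _ _
    have hβB : β ∈ B := Finset.max'_mem _ _
    have hαβ : α < β := Finset.min'_lt_max'_of_card _ (by omega)
    obtain ⟨l, hl⟩ : ∃ l, l ∈ (B.erase α).erase β := by
      apply Finset.card_pos.mp
      rw [Finset.card_erase_of_mem (Finset.mem_erase.mpr ⟨hαβ.ne', hβB⟩),
        Finset.card_erase_of_mem hαB]
      omega
    rw [Finset.mem_erase, Finset.mem_erase] at hl
    obtain ⟨hlβ, hlα, hlB⟩ := hl
    have h1 : α < l := lt_of_le_of_ne (Finset.min'_le _ _ hlB) (Ne.symm hlα)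
    have h2 : l < β := lt_of_le_of_ne (Finset.le_max' _ _ hlB) hlβ
    -- l = (b α + a β) / (a + b)
    obtain ⟨a, b, ha, hb, hab⟩ : ∃ a b : ℕ, a ≠ 0 ∧ b ≠ 0 ∧
        (a : ℚ) * (β - l) = b * (l - α) := by
      have h3 : 0 < (l - α) / (β - l) := div_pos (sub_pos.mpr h1) (sub_pos.mpr h2)
      set r := (l - α) / (β - l) with hr
      refine ⟨r.num.toNat, r.den, ?_, r.den_ne_zero, ?_⟩
      · have := Rat.num_pos.mpr h3
        omega
      · have h4 : ((r.num.toNat : ℕ) : ℚ) = r.num := by
          have := Rat.num_pos.mpr h3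
          have h5 : ((r.num.toNat : ℕ) : ℤ) = r.num := by omega
          exact_mod_cast h5
        rw [h4]
        have h6 : (r.num : ℚ) = r * r.den := (Rat.mul_den_eq_num r).symm
        rw [h6, hr]
        have h7 : β - l ≠ 0 := (sub_pos.mpr h2).ne'
        field_simp
    have hβα : β - α ≠ 0 := (sub_pos.mpr hαβ).ne'
    set A : ℚ[X] := C (β - α)⁻¹ * (X - C α) with hA
    set f : ℚ[X] := (bel a b).comp A with hf
    have hAe : ∀ x : ℚ, A.eval x = (x - α) / (β - α) := by
      intro x
      rw [hA, eval_mul, eval_C, eval_sub, eval_X, eval_C]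
      field_simp
    have hfα : f.eval α = 0 := by
      rw [hf, eval_comp, hAe, sub_self, zero_div, bel_zero ha]
    have hfβ : f.eval β = 0 := by
      rw [hf, eval_comp, hAe, div_self hβα, bel_one hb]
    have hfl : f.eval l = 1 := by
      rw [hf, eval_comp, hAe]
      have h3 := bel_mid (K := ℚ) ha hb ((l - α) / (β - α)) (by
        field_simp
        linear_combination hab)
      rwa [aeval_def, Algebra.algebraMap_self, eval₂_id] at h3
    have hAcrit : ∀ c : ℂ, aeval c (derivative A) ≠ 0 := by
      intro c hc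
      rw [hA, derivative_C_mul, derivative_sub, derivative_X, derivative_C, sub_zero, mul_one,
        aeval_C] at hc
      have h3 : (algebraMap ℚ ℂ) ((β - α)⁻¹) = (algebraMap ℚ ℂ) 0 := by rw [hc, map_zero]
      exact inv_ne_zero hβα ((algebraMap ℚ ℂ).injective h3)
    have hfcrit : ∀ c : ℂ, aeval c (derivative f) = 0 → aeval c f ∈ ({0, 1} : Set ℂ) := by
      intro c hc
      rw [hf] at hc ⊢
      refine crit_comp _ _ _ (fun c hc => absurd hc (hAcrit c)) ?_ c hc
      intro c hc
      rcases bel_crit ha hb c hc with h | h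
      · rw [h]; simp
      · rw [h]; simp
    -- the new set
    set B1 := B.image (fun x => f.eval x) with hB1
    have hcard : B1.card < B.card := by
      have h3 : B1 = (B.erase α).image (fun x => f.eval x) := by
        ext y
        rw [hB1, Finset.mem_image, Finset.mem_image]
        constructor
        · rintro ⟨x, hx, rfl⟩
          by_cases hxα : x = α
          · exact ⟨β, Finset.mem_erase.mpr ⟨hαβ.ne', hβB⟩, by rw [hxα, hfα, hfβ]⟩
          · exact ⟨x, Finset.mem_erase.mpr ⟨hxα, hx⟩, rfl⟩
        · rintro ⟨x, hx, rfl⟩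
          exact ⟨x, Finset.mem_of_mem_erase hx, rfl⟩
      rw [h3]
      refine lt_of_le_of_lt Finset.card_image_le ?_
      exact Finset.card_erase_lt_of_mem hαB
    obtain ⟨P, hP0, hPB, hPc⟩ := ih B1.card (lt_of_lt_of_le hcard hB) B1 le_rfl
    have h0B1 : (0 : ℚ) ∈ B1 := Finset.mem_image.mpr ⟨α, hαB, hfα⟩
    have h1B1 : (1 : ℚ) ∈ B1 := Finset.mem_image.mpr ⟨l, hlB, hfl⟩
    have hPcast : ∀ q : ℚ, aeval (q : ℂ) P = ((P.eval q : ℚ) : ℂ) := by
      intro q
      have := aeval_algebraMap_apply_eq_algebraMap_eval (A := ℂ) q P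
      simpa using this
    refine ⟨P.comp f, ?_, ?_, ?_⟩
    · rw [natDegree_comp]
      apply Nat.mul_pos hP0
      rw [Nat.pos_iff_ne_zero]
      intro h0
      rw [natDegree_eq_zero] at h0
      obtain ⟨x, hx⟩ := h0
      rw [← hx, eval_C] at hfα
      rw [← hx, eval_C, hfα] at hfl
      exact zero_ne_one hfl
    · intro b hb
      rw [eval_comp]
      exact hPB _ (Finset.mem_image.mpr ⟨b, hb, rfl⟩)
    · intro c hc
      refine crit_comp _ _ _ ?_ hPc c hc
      intro c hc
      have h3 := hfcrit c hc
      rw [Set.mem_insert_iff, Set.mem_singleton_iff] at h3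
      rcases h3 with h3 | h3
      · rw [h3]
        have h4 := hPcast 0
        rw [Rat.cast_zero] at h4
        rw [h4]
        rcases hPB 0 h0B1 with h5 | h5 <;> rw [h5] <;> simp
      · rw [h3]
        have h4 := hPcast 1
        rw [Rat.cast_one] at h4
        rw [h4]
        rcases hPB 1 h1B1 with h5 | h5 <;> rw [h5] <;> simp

/-- the degree of an algebraic number does not grow under polynomial maps -/
theorem deg_le (P : ℚ[X]) (c : ℂ) (hc : IsAlgebraic ℚ c) :
    IsAlgebraic ℚ (aeval c P) ∧ (minpoly ℚ (aeval c P)).natDegree ≤ (minpoly ℚ c).natDegree := by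
  have hci : IsIntegral ℚ c := hc.isIntegral
  have h1 : aeval c P = ((aeval (IntermediateField.AdjoinSimple.gen ℚ c) P :
      IntermediateField.adjoin ℚ {c}) : ℂ) := by
    have h2 := aeval_algebraMap_apply ℂ (IntermediateField.AdjoinSimple.gen ℚ c) P
    rw [IntermediateField.AdjoinSimple.algebraMap_gen] at h2
    exact h2
  have hfd : FiniteDimensional ℚ (IntermediateField.adjoin ℚ {c}) :=
    IntermediateField.adjoin.finiteDimensional hci
  set y : IntermediateField.adjoin ℚ {c} := aeval (IntermediateField.AdjoinSimple.gen ℚ c) P with hy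
  have h3 : minpoly ℚ (aeval c P) = minpoly ℚ y := by
    rw [h1]
    exact minpoly.algebraMap_eq (algebraMap (IntermediateField.adjoin ℚ {c}) ℂ).injective y
  constructor
  · rw [h1]
    have h4 : IsAlgebraic ℚ y := Algebra.IsAlgebraic.isAlgebraic y
    exact h4.algebraMap
  · rw [h3, ← IntermediateField.adjoin.finrank hci]
    exact minpoly.natDegree_le y

/-- reduction to rational numbers -/
theorem belyi_alg (n : ℕ) : ∀ (k : ℕ) (B : Finset ℂ), (∀ b ∈ B, IsAlgebraic ℚ b) →
    (∀ b ∈ B, (minpoly ℚ b).natDegree ≤ n) →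
    (B.filter (fun b => (minpoly ℚ b).natDegree = n)).card ≤ k →
    ∃ P : ℚ[X], 0 < P.natDegree ∧ (∀ b ∈ B, ∃ q : ℚ, aeval b P = q) ∧
      ∀ c : ℂ, aeval c (derivative P) = 0 → ∃ q : ℚ, aeval c P = q := by
  induction n with
  | zero =>
    intro k B hB hd _
    refine ⟨X, by rw [natDegree_X]; exact Nat.one_pos, ?_, ?_⟩
    · intro b hb
      exfalso
      have h1 := minpoly.natDegree_pos (hB b hb).isIntegral
      have h2 := hd b hb
      omega
    · intro c hc
      rw [derivative_X, map_one] at hc
      exact absurd hc one_ne_zero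
  | succ n ih =>
    rcases Nat.eq_zero_or_pos n with rfl | hn
    · -- all rational
      intro k B hB hd _
      refine ⟨X, by rw [natDegree_X]; exact Nat.one_pos, ?_, ?_⟩
      · intro b hb
        have h1 := minpoly.natDegree_pos (hB b hb).isIntegral
        have h2 := hd b hb
        have h3 : (minpoly ℚ b).natDegree = 1 := by omega
        obtain ⟨q, hq⟩ := minpoly.mem_range_of_degree_eq_one ℚ b
          ((degree_eq_iff_natDegree_eq_of_pos Nat.one_pos).mpr h3)
        exact ⟨q, by rw [aeval_X, ← hq]; simp⟩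
      · intro c hc
        rw [derivative_X, map_one] at hc
        exact absurd hc one_ne_zero
    · intro k
      induction k with
      | zero =>
        intro B hB hd hk
        refine ih _ B hB ?_ le_rfl
        intro b hb
        have h1 := hd b hb
        rcases Nat.lt_or_ge (minpoly ℚ b).natDegree (n + 1) with h2 | h2
        · omega
        · exfalso
          have h3 : b ∈ B.filter (fun b => (minpoly ℚ b).natDegree = n + 1) :=
            Finset.mem_filter.mpr ⟨hb, by omega⟩
          rw [Finset.card_eq_zero.mp (Nat.le_zero.mp hk)] at h3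
          exact absurd h3 (Finset.notMem_empty _)
      | succ k ihk =>
        intro B hB hd hk
        by_cases hempty : (B.filter (fun b => (minpoly ℚ b).natDegree = n + 1)).card ≤ k
        · exact ihk B hB hd hempty
        push Not at hempty
        obtain ⟨b0, hb0⟩ : (B.filter (fun b => (minpoly ℚ b).natDegree = n + 1)).Nonempty :=
          Finset.card_pos.mp (by omega)
        have hb0' := Finset.mem_filter.mp hb0
        set h := minpoly ℚ b0 with hh
        have hh0 : h ≠ 0 := minpoly.ne_zero (hB b0 hb0'.1).isIntegral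
        have hhd : (derivative h).natDegree < n + 1 := by
          rw [← hb0'.2]
          exact natDegree_derivative_lt (by omega)
        have hh' : derivative h ≠ 0 := by
          intro h0
          have := derivative_eq_zero.mp h0
          omega
        have hmap0 : (derivative h).map (algebraMap ℚ ℂ) ≠ 0 :=
          (Polynomial.map_ne_zero_iff (algebraMap ℚ ℂ).injective).mpr hh'
        classical
        set R : Finset ℂ := ((derivative h).map (algebraMap ℚ ℂ)).roots.toFinset with hR
        have hRm : ∀ c : ℂ, c ∈ R ↔ aeval c (derivative h) = 0 := by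
          intro c
          rw [hR, Multiset.mem_toFinset, mem_roots hmap0, IsRoot.def, eval_map_algebraMap]
        have hRd : ∀ c ∈ R, IsAlgebraic ℚ c ∧ (minpoly ℚ c).natDegree ≤ n := by
          intro c hc
          have h1 := (hRm c).mp hc
          refine ⟨⟨derivative h, hh', h1⟩, ?_⟩
          have h2 := natDegree_le_of_dvd (minpoly.dvd ℚ c h1) hh'
          omega
        set B1 : Finset ℂ := (B ∪ R).image (fun c => aeval c h) with hB1
        have hB1a : ∀ b ∈ B1, IsAlgebraic ℚ b := by
          intro b hb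
          obtain ⟨c, hc, rfl⟩ := Finset.mem_image.mp hb
          rcases Finset.mem_union.mp hc with hc | hc
          · exact (deg_le h c (hB c hc)).1
          · exact (deg_le h c (hRd c hc).1).1
        have hB1d : ∀ b ∈ B1, (minpoly ℚ b).natDegree ≤ n + 1 := by
          intro b hb
          obtain ⟨c, hc, rfl⟩ := Finset.mem_image.mp hb
          rcases Finset.mem_union.mp hc with hc | hc
          · exact le_trans (deg_le h c (hB c hc)).2 (hd c hc)
          · have h1 := (deg_le h c (hRd c hc).1).2
            have h2 := (hRd c hc).2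
            omega
        have hB1k : (B1.filter (fun b => (minpoly ℚ b).natDegree = n + 1)).card ≤ k := by
          have hsub : B1.filter (fun b => (minpoly ℚ b).natDegree = n + 1) ⊆
              ((B.filter (fun b => (minpoly ℚ b).natDegree = n + 1)).erase b0).image
                (fun c => aeval c h) := by
            intro b hb
            rw [Finset.mem_filter] at hb
            obtain ⟨hb1, hb2⟩ := hb
            obtain ⟨c, hc, rfl⟩ := Finset.mem_image.mp hb1
            rcases Finset.mem_union.mp hc with hc | hc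
            · refine Finset.mem_image.mpr ⟨c, Finset.mem_erase.mpr ⟨?_, Finset.mem_filter.mpr
                ⟨hc, ?_⟩⟩, rfl⟩
              · intro hcb
                have h1 : aeval c h = 0 := by rw [hcb, hh]; exact minpoly.aeval ℚ b0
                change (minpoly ℚ (aeval c h)).natDegree = n + 1 at hb2
                rw [h1, minpoly.zero, natDegree_X] at hb2
                omega
              · have h1 := (deg_le h c (hB c hc)).2
                have h2 := hd c hc
                change (minpoly ℚ (aeval c h)).natDegree = n + 1 at hb2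
                omega
            · exfalso
              have h1 := (deg_le h c (hRd c hc).1).2
              have h2 := (hRd c hc).2
              change (minpoly ℚ (aeval c h)).natDegree = n + 1 at hb2
              omega
          refine le_trans (Finset.card_le_card hsub) (le_trans Finset.card_image_le ?_)
          rw [Finset.card_erase_of_mem hb0]
          omega
        obtain ⟨P, hP0, hPB, hPc⟩ := ihk B1 hB1a hB1d hB1k
        refine ⟨P.comp h, ?_, ?_, ?_⟩
        · rw [natDegree_comp]
          exact Nat.mul_pos hP0 (by omega)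
        · intro b hb
          rw [aeval_comp]
          exact hPB _ (Finset.mem_image.mpr ⟨b, Finset.mem_union_left _ hb, rfl⟩)
        · intro c hc
          refine crit_comp P h {x | ∃ q : ℚ, x = q} ?_ hPc c hc
          intro c hc
          exact hPB _ (Finset.mem_image.mpr ⟨c, Finset.mem_union_right _ ((hRm c).mpr hc), rfl⟩)

/-- **Belyi's theorem** for polynomials. -/
theorem belyi (B : Finset ℂ) (hB : ∀ b ∈ B, IsAlgebraic ℚ b) : ∃ P : ℚ[X], 0 < P.natDegree ∧
    (∀ b ∈ B, aeval b P ∈ ({0, 1} : Set ℂ)) ∧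
    ∀ c : ℂ, aeval c (derivative P) = 0 → aeval c P ∈ ({0, 1} : Set ℂ) := by
  classical
  obtain ⟨Q, hQ0, hQB, hQc⟩ := belyi_alg (B.sup (fun b => (minpoly ℚ b).natDegree)) _ B hB
    (fun b hb => Finset.le_sup (f := fun b => (minpoly ℚ b).natDegree) hb) le_rfl
  have hQ' : derivative Q ≠ 0 := by
    intro h0
    have := derivative_eq_zero.mp h0
    omega
  have hmap0 : (derivative Q).map (algebraMap ℚ ℂ) ≠ 0 :=
    (Polynomial.map_ne_zero_iff (algebraMap ℚ ℂ).injective).mpr hQ'
  set R : Finset ℂ := ((derivative Q).map (algebraMap ℚ ℂ)).roots.toFinset with hR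
  have hRm : ∀ c : ℂ, c ∈ R ↔ aeval c (derivative Q) = 0 := by
    intro c
    rw [hR, Multiset.mem_toFinset, mem_roots hmap0, IsRoot.def, eval_map_algebraMap]
  have hval : ∀ c ∈ B ∪ R, ∃ q : ℚ, aeval c Q = q := by
    intro c hc
    rcases Finset.mem_union.mp hc with hc | hc
    · exact hQB c hc
    · exact hQc c ((hRm c).mp hc)
  set q : ℂ → ℚ := fun c => if hc : ∃ q : ℚ, aeval c Q = q then hc.choose else 0 with hq
  have hq1 : ∀ c ∈ B ∪ R, aeval c Q = q c := by
    intro c hc
    rw [hq]
    simp only
    rw [dif_pos (hval c hc)]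
    exact (hval c hc).choose_spec
  obtain ⟨P, hP0, hPB, hPc⟩ := belyi_rat _ ((B ∪ R).image q) le_rfl
  have hPcast : ∀ q : ℚ, aeval (q : ℂ) P = ((P.eval q : ℚ) : ℂ) := by
    intro q
    have := aeval_algebraMap_apply_eq_algebraMap_eval (A := ℂ) q P
    simpa using this
  have hPv : ∀ c ∈ B ∪ R, aeval (aeval c Q) P ∈ ({0, 1} : Set ℂ) := by
    intro c hc
    rw [hq1 c hc, hPcast]
    rcases hPB _ (Finset.mem_image.mpr ⟨c, hc, rfl⟩) with h | h <;> rw [h] <;> simp
  refine ⟨P.comp Q, ?_, ?_, ?_⟩
  · rw [natDegree_comp]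
    exact Nat.mul_pos hP0 hQ0
  · intro b hb
    rw [aeval_comp]
    exact hPv b (Finset.mem_union_left _ hb)
  · intro c hc
    refine crit_comp P Q _ ?_ hPc c hc
    intro c hc
    exact hPv c (Finset.mem_union_right _ ((hRm c).mpr hc))

end Pool.Agent.Work.MP_298761_h79
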