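import Pool.Agent.Work.MP_298761_h79.Belyi

/-!
# MP_298761_ag: the variational Hodge conjecture over curves defined over the algebraic numbers

All varieties, families and subcategories are defined over `ℚ̄ ⊂ ℂ`. `Bases`: the bases of the
families, with their complex points. `FlatTheory`: flat sections (a smooth proper family `X → S` over
`ℚ̄`, an `S`-linear admissible subcategory and a global section of `K₀ᵗᵒᵖ ⊗ ℚ` on `Sᵃⁿ`), with the set
of the complex points at which the section is algebraic.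
-/

set_option autoImplicit false

namespace Pool.Agent.Work.MP_298761_h79.BelyiBases

open Polynomial Pool.Agent.Work.MP_298761_h79

/-- The bases of families over `ℚ̄`. -/
structure Bases where
  /-- varieties over `ℚ̄` -/
  Obj : Type
  /-- complex points -/
  Pt : Obj → Type
  /-- the points with coordinates in `ℚ̄` -/
  Rat : ∀ S : Obj, Set (Pt S)
  /-- morphisms over `ℚ̄` -/
  Mor : Obj → Obj → Type
  /-- the action of a morphism on the complex points -/
  map : ∀ {S S' : Obj}, Mor S' S → Pt S' → Pt S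
  /-- smooth connected curves -/
  Curve : Obj → Prop
  /-- two `ℚ̄`-points of a variety lie on the image of a smooth connected curve -/
  join : ∀ (S : Obj), ∀ x ∈ Rat S, ∀ y ∈ Rat S, ∃ (C : Obj) (p : Mor C S) (x' y' : Pt C),
    Curve C ∧ map p x' = x ∧ map p y' = y
  /-- a curve has uncountably many complex points -/
  rat_compl : ∀ S, Curve S → (Rat S)ᶜ.Infinite
  /-- finite morphisms over `ℚ̄` from the smooth compactification of `S` to the projective line
  whose only pole is `x` -/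
  Fn : ∀ {S : Obj}, Pt S → Type
  /-- the values at the points of `S` other than `x` -/
  val : ∀ {S : Obj} {x : Pt S}, Fn x → {y : Pt S // y ≠ x} → ℂ
  /-- Riemann-Roch -/
  exists_fn : ∀ {S : Obj}, Curve S → ∀ x ∈ Rat S, Nonempty (Fn x)
  /-- non-constant functions have finite fibres -/
  finite_fib : ∀ {S : Obj} {x : Pt S} (g : Fn x) (t : ℂ), {y | val g y = t}.Finite
  /-- the critical values in `ℂ` and the values at the points of the compactification outside `S` -/
  bad : ∀ {S : Obj} {x : Pt S}, Fn x → Finset ℂ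
  /-- critical values are algebraic numbers -/
  bad_alg : ∀ {S : Obj} {x : Pt S} (g : Fn x), ∀ b ∈ bad g, IsAlgebraic ℚ b
  /-- `P ∘ g` for a non-constant polynomial `P` over `ℚ` -/
  comp : ∀ {S : Obj} {x : Pt S}, Fn x → ∀ P : ℚ[X], 0 < P.natDegree → Fn x
  val_comp : ∀ {S : Obj} {x : Pt S} (g : Fn x) (P : ℚ[X]) (hP : 0 < P.natDegree)
    (y : {y : Pt S // y ≠ x}), val (comp g P hP) y = aeval (val g y) P
  bad_comp : ∀ {S : Obj} {x : Pt S} (g : Fn x) (P : ℚ[X]) (hP : 0 < P.natDegree),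
    ∀ b ∈ bad (comp g P hP), (∃ a ∈ bad g, aeval a P = b) ∨
      ∃ c : ℂ, aeval c (derivative P) = 0 ∧ aeval c P = b
  /-- the projective line without `0, 1, ∞` -/
  leg : Obj
  legPt : Pt leg ≃ {z : ℂ // z ≠ 0 ∧ z ≠ 1}
  /-- the affine line without the `n`-th roots of unity, `n ≥ 1` -/
  line : ℕ → Obj
  linePt : ∀ n, Pt (line n) ≃ {u : ℂ // u ^ n ≠ 1}
  line_curve : ∀ n, 1 ≤ n → Curve (line n)
  /-- `line n` without `0` -/
  lineO : ℕ → Obj
  lineOPt : ∀ n, Pt (lineO n) ≃ {u : ℂ // u ^ n ≠ 1 ∧ u ≠ 0}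
  /-- the inclusion -/
  lineI : ∀ n, Mor (lineO n) (line n)
  map_lineI : ∀ n, 1 ≤ n → ∀ u : Pt (lineO n),
    (linePt n (map (lineI n) u) : ℂ) = (lineOPt n u : ℂ)
  /-- `u ↦ u ^ n` -/
  lineP : ∀ n, Mor (lineO n) leg
  map_lineP : ∀ n, 1 ≤ n → ∀ u : Pt (lineO n),
    (legPt (map (lineP n) u) : ℂ) = (lineOPt n u : ℂ) ^ n
  /-- the affine curve `v ^ 2 = 1 - u ^ n`, `n ≥ 1` -/
  hyp : ℕ → Obj
  hypPt : ∀ n, Pt (hyp n) ≃ {p : ℂ × ℂ // p.2 ^ 2 = 1 - p.1 ^ n}
  hyp_curve : ∀ n, 1 ≤ n → Curve (hyp n)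
  /-- `hyp n` without the points with `u v = 0` -/
  hypO : ℕ → Obj
  hypOPt : ∀ n, Pt (hypO n) ≃ {p : ℂ × ℂ // p.2 ^ 2 = 1 - p.1 ^ n ∧ p.1 * p.2 ≠ 0}
  /-- the inclusion -/
  hypI : ∀ n, Mor (hypO n) (hyp n)
  map_hypI : ∀ n, 1 ≤ n → ∀ p : Pt (hypO n),
    (hypPt n (map (hypI n) p) : ℂ × ℂ) = (hypOPt n p : ℂ × ℂ)
  /-- `(u, v) ↦ u ^ n` -/
  hypP : ∀ n, Mor (hypO n) leg
  map_hypP : ∀ n, 1 ≤ n → ∀ p : Pt (hypO n),
    (legPt (map (hypP n) p) : ℂ) = (hypOPt n p : ℂ × ℂ).1 ^ n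

/-- the polynomial `4 X (1 - X)` -/
noncomputable def four : ℚ[X] := 4 * X * (1 - X)

theorem four_deg : 0 < four.natDegree := by
  have h : four = C (-4) * X ^ 2 + C 4 * X + C 0 := by
    rw [four]
    simp only [map_neg, map_ofNat, map_zero, add_zero]
    ring
  rw [h, natDegree_quadratic (by norm_num)]
  norm_num

/-- Flat sections over the bases. -/
structure FlatTheory (B : Bases) where
  /-- families over `S` with a flat section (up to isomorphism) -/
  Sec : B.Obj → Type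
  /-- the complex points at which a flat section is algebraic -/
  Alg : ∀ {S : B.Obj}, Sec S → Set (B.Pt S)
  /-- the algebraic locus is a countable union of closed subvarieties defined over `ℚ̄` -/
  alg_curve : ∀ {S : B.Obj}, B.Curve S → ∀ s : Sec S, Alg s = Set.univ ∨ Alg s ⊆ B.Rat S
  /-- base change -/
  pull : ∀ {S S' : B.Obj}, B.Mor S' S → Sec S → Sec S'
  alg_pull : ∀ {S S' : B.Obj} (p : B.Mor S' S) (s : Sec S) (y : B.Pt S'),
    y ∈ Alg (pull p s) ↔ B.map p y ∈ Alg s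
  /-- if `g` has no critical values and no values outside `S` besides `0, 1, ∞`, then `1 / g` is a
  finite étale morphism from an open part of `S` to `leg`; push forward of the restriction -/
  push : ∀ {S : B.Obj} {x : B.Pt S} (g : B.Fn x), (∀ b ∈ B.bad g, b ∈ ({0, 1} : Set ℂ)) →
    Sec S → Sec B.leg
  alg_push : ∀ {S : B.Obj} {x : B.Pt S} (g : B.Fn x)
    (hg : ∀ b ∈ B.bad g, b ∈ ({0, 1} : Set ℂ)) (s : Sec S) (z : B.Pt B.leg),
    z ∈ Alg (push g hg s) ↔ ∀ y : {y : B.Pt S // y ≠ x},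
      B.val g y * (B.legPt z : ℂ) = 1 → (y : B.Pt S) ∈ Alg s
  /-- `1 / g` has the only zero `x`; if its order divides `n`, the pull back of `S` along
  `u ↦ u ^ n` is étale over `line n`, and all its points over `u = 0` are mapped to `x` -/
  extend_line : ∀ {S : B.Obj} {x : B.Pt S} (g : B.Fn x)
    (hg : ∀ b ∈ B.bad g, b ∈ ({0, 1} : Set ℂ)) (s : Sec S), ∃ m : ℕ, 1 ≤ m ∧
      ∀ n : ℕ, 1 ≤ n → m ∣ n → ∃ r : Sec (B.line n),
        pull (B.lineI n) r = pull (B.lineP n) (push g hg s) ∧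
          ∀ u : B.Pt (B.line n), (B.linePt n u : ℂ) = 0 → (u ∈ Alg r ↔ x ∈ Alg s)
  /-- for `g' = 4 g (1 - g)` the points over `1` are ramified of order two; if the order of the zero
  `x` of `1 / g'` divides `n`, the pull back of `S` along `(u, v) ↦ u ^ n` is étale over `hyp n`,
  and all its points over `(0, 1)` are mapped to `x` -/
  extend_hyp : ∀ {S : B.Obj} {x : B.Pt S} (g : B.Fn x),
    (∀ b ∈ B.bad g, b ∈ ({0, 1} : Set ℂ)) →
    ∀ (hg' : ∀ b ∈ B.bad (B.comp g four four_deg), b ∈ ({0, 1} : Set ℂ)) (s : Sec S),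
      ∃ m : ℕ, 1 ≤ m ∧ ∀ n : ℕ, 1 ≤ n → m ∣ n → ∃ r : Sec (B.hyp n),
        pull (B.hypI n) r = pull (B.hypP n) (push (B.comp g four four_deg) hg' s) ∧
          ∀ p : B.Pt (B.hyp n), (B.hypPt n p : ℂ × ℂ) = (0, 1) → (p ∈ Alg r ↔ x ∈ Alg s)

variable {B : Bases}

/-- **Q1** over the curves defined over `ℚ̄`: a flat section which is algebraic at one complex point
is algebraic everywhere. -/
def Q1 (T : FlatTheory B) : Prop :=
  ∀ S : B.Obj, B.Curve S → ∀ s : T.Sec S, (T.Alg s).Nonempty → T.Alg s = Set.univ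

/-- Q1 for the affine line without the `n`-th roots of unity, at the point `0`. -/
def AtZero (T : FlatTheory B) (n : ℕ) : Prop :=
  ∀ r : T.Sec (B.line n), (∃ u ∈ T.Alg r, (B.linePt n u : ℂ) = 0) → T.Alg r = Set.univ

/-- Q1 for the curve `v ^ 2 = 1 - u ^ n` at the point `(0, 1)`, for the sections whose restrictions
to `u v ≠ 0` are pull backs of sections over the projective line without `0, 1, ∞` along `u ^ n`. -/
def AtOrbifold (T : FlatTheory B) (n : ℕ) : Prop :=
  ∀ (r : T.Sec (B.hyp n)) (t : T.Sec B.leg), T.pull (B.hypI n) r = T.pull (B.hypP n) t →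
    (∃ p ∈ T.Alg r, (B.hypPt n p : ℂ × ℂ) = (0, 1)) → T.Alg r = Set.univ

theorem bad_four {S : B.Obj} {x : B.Pt S} (g : B.Fn x)
    (hg : ∀ b ∈ B.bad g, b ∈ ({0, 1} : Set ℂ)) :
    ∀ b ∈ B.bad (B.comp g four four_deg), b ∈ ({0, 1} : Set ℂ) := by
  intro b hb
  rcases B.bad_comp g four four_deg b hb with ⟨a, ha, hab⟩ | ⟨c, hc, hcb⟩
  · rcases hg a ha with h | h
    · left
      rw [← hab, h]
      simp [four]
    · left
      rw [← hab, Set.mem_singleton_iff.mp h]
      simp [four]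
  · right
    have h1 : aeval c (derivative four) = 4 - 8 * c := by
      rw [four]
      simp only [derivative_mul, derivative_one, derivative_X, map_add, map_mul,
        map_sub, map_one, aeval_X, map_ofNat, derivative_ofNat, map_zero]
      ring
    rw [h1] at hc
    have h2 : c = 1 / 2 := by linear_combination (-1 / 8 : ℂ) * hc
    rw [Set.mem_singleton_iff, ← hcb, h2, four]
    simp only [map_mul, map_sub, map_one, aeval_X, map_ofNat]
    norm_num

/-- Belyi functions with only one pole -/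
theorem exists_belyi (S : B.Obj) (hS : B.Curve S) (x : B.Pt S) (hx : x ∈ B.Rat S) :
    ∃ g : B.Fn x, ∀ b ∈ B.bad g, b ∈ ({0, 1} : Set ℂ) := by
  obtain ⟨g⟩ := B.exists_fn hS x hx
  obtain ⟨P, hP0, hPB, hPc⟩ := belyi (B.bad g) (B.bad_alg g)
  refine ⟨B.comp g P hP0, ?_⟩
  intro b hb
  rcases B.bad_comp g P hP0 b hb with ⟨a, ha, rfl⟩ | ⟨c, hc, rfl⟩
  · exact hPB a ha
  · exact hPc c hc

/-- a section over a curve which is algebraic outside a finite set is algebraic everywhere -/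
theorem all_of_cofinite (T : FlatTheory B) (S : B.Obj) (hS : B.Curve S) (s : T.Sec S)
    (h : (T.Alg s)ᶜ.Finite) : T.Alg s = Set.univ := by
  rcases T.alg_curve hS s with h1 | h1
  · exact h1
  · exact absurd (h.subset (Set.compl_subset_compl.mpr h1)) (B.rat_compl S hS)

theorem cofinite_of_push (T : FlatTheory B) {S : B.Obj} {x : B.Pt S} (g : B.Fn x)
    (hg : ∀ b ∈ B.bad g, b ∈ ({0, 1} : Set ℂ)) (s : T.Sec S) (hx : x ∈ T.Alg s)
    (h : T.Alg (T.push g hg s) = Set.univ) : (T.Alg s)ᶜ.Finite := by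
  have hsub : (T.Alg s)ᶜ ⊆ Subtype.val '' ({y | B.val g y = 0} ∪ {y | B.val g y = 1}) := by
    intro y hy
    have hyx : y ≠ x := fun h' => hy (by rw [h']; exact hx)
    refine ⟨⟨y, hyx⟩, ?_, rfl⟩
    by_contra hcon
    rw [Set.mem_union, not_or] at hcon
    have h0 : B.val g ⟨y, hyx⟩ ≠ 0 := hcon.1
    have h1 : B.val g ⟨y, hyx⟩ ≠ 1 := hcon.2
    set z : B.Pt B.leg := B.legPt.symm ⟨(B.val g ⟨y, hyx⟩)⁻¹, inv_ne_zero h0, by
      intro h'
      exact h1 (inv_eq_one.mp h')⟩ with hz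
    have h2 : z ∈ T.Alg (T.push g hg s) := by rw [h]; exact Set.mem_univ _
    rw [T.alg_push] at h2
    exact hy (h2 ⟨y, hyx⟩ (by rw [hz, Equiv.apply_symm_apply]; exact mul_inv_cancel₀ h0))
  exact ((B.finite_fib g 0).union (B.finite_fib g 1)).image _ |>.subset hsub

theorem push_univ_of_line (T : FlatTheory B) (n : ℕ) (hn : 1 ≤ n) (r : T.Sec (B.line n))
    (t : T.Sec B.leg) (h : T.pull (B.lineI n) r = T.pull (B.lineP n) t)
    (hr : T.Alg r = Set.univ) : T.Alg t = Set.univ := by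
  ext z
  simp only [Set.mem_univ, iff_true]
  obtain ⟨u, hu⟩ := IsAlgClosed.exists_pow_nat_eq (B.legPt z : ℂ) hn
  have hz := (B.legPt z).2
  have hu0 : u ≠ 0 := by
    intro h0
    apply hz.1
    rw [← hu, h0, zero_pow (by omega)]
  set w : B.Pt (B.lineO n) := (B.lineOPt n).symm ⟨u, by rw [hu]; exact hz.2, hu0⟩ with hw
  have h1 : w ∈ T.Alg (T.pull (B.lineI n) r) := by
    rw [T.alg_pull, hr]
    exact Set.mem_univ _
  rw [h, T.alg_pull] at h1
  have h2 : B.map (B.lineP n) w = z := by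
    apply B.legPt.injective
    apply Subtype.ext
    rw [B.map_lineP n hn w, hw, Equiv.apply_symm_apply, hu]
  rwa [h2] at h1

theorem push_univ_of_hyp (T : FlatTheory B) (n : ℕ) (hn : 1 ≤ n) (r : T.Sec (B.hyp n))
    (t : T.Sec B.leg) (h : T.pull (B.hypI n) r = T.pull (B.hypP n) t)
    (hr : T.Alg r = Set.univ) : T.Alg t = Set.univ := by
  ext z
  simp only [Set.mem_univ, iff_true]
  obtain ⟨u, hu⟩ := IsAlgClosed.exists_pow_nat_eq (B.legPt z : ℂ) hn
  obtain ⟨v, hv⟩ := IsAlgClosed.exists_pow_nat_eq (1 - (B.legPt z : ℂ)) (n := 2) (by norm_num)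
  have hz := (B.legPt z).2
  have hu0 : u ≠ 0 := by
    intro h0
    apply hz.1
    rw [← hu, h0, zero_pow (by omega)]
  have hv0 : v ≠ 0 := by
    intro h0
    apply hz.2
    rw [h0, zero_pow (by norm_num)] at hv
    linear_combination hv
  set w : B.Pt (B.hypO n) := (B.hypOPt n).symm ⟨(u, v), by rw [hu]; exact hv,
    mul_ne_zero hu0 hv0⟩ with hw
  have h1 : w ∈ T.Alg (T.pull (B.hypI n) r) := by
    rw [T.alg_pull, hr]
    exact Set.mem_univ _
  rw [h, T.alg_pull] at h1
  have h2 : B.map (B.hypP n) w = z := by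
    apply B.legPt.injective
    apply Subtype.ext
    rw [B.map_hypP n hn w, hw, Equiv.apply_symm_apply]
    exact hu
  rwa [h2] at h1

/-- Let `N` be any set of positive integers which contains a multiple of every positive integer.
Q1 over all curves defined over `ℚ̄` is equivalent to Q1 at `u = 0` over the affine line without the
`n`-th roots of unity, `n ∈ N`, and to Q1 at `(0, 1)` over the curves `v ^ 2 = 1 - u ^ n`, `n ∈ N`,
for pull backs from the projective line without three points. If it holds, then over every variety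
defined over `ℚ̄` a flat section which is algebraic at one `ℚ̄`-point is algebraic at all of them. -/
theorem result (B : Bases) (T : FlatTheory B) (N : Set ℕ)
    (hN : ∀ m : ℕ, 1 ≤ m → ∃ n ∈ N, 1 ≤ n ∧ m ∣ n) :
    (Q1 T ↔ ∀ n ∈ N, 1 ≤ n → AtZero T n) ∧
    (Q1 T ↔ ∀ n ∈ N, 1 ≤ n → AtOrbifold T n) ∧
    (Q1 T → ∀ (S : B.Obj) (s : T.Sec S), ∀ x ∈ B.Rat S, ∀ y ∈ B.Rat S,
      x ∈ T.Alg s → y ∈ T.Alg s) := by
  refine ⟨⟨?_, ?_⟩, ⟨?_, ?_⟩, ?_⟩
  · intro hQ n _ hn r hr
    obtain ⟨u, hu, _⟩ := hr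
    exact hQ _ (B.line_curve n hn) r ⟨u, hu⟩
  · intro h S hS s hs
    rcases T.alg_curve hS s with h1 | h1
    · exact h1
    obtain ⟨x, hx⟩ := hs
    obtain ⟨g, hg⟩ := exists_belyi S hS x (h1 hx)
    obtain ⟨m, hm, hext⟩ := T.extend_line g hg s
    obtain ⟨n, hnN, hn, hmn⟩ := hN m hm
    obtain ⟨r, hr, hr0⟩ := hext n hn hmn
    have h0 : T.Alg r = Set.univ := by
      refine h n hnN hn r ⟨(B.linePt n).symm ⟨0, by rw [zero_pow (by omega)]; exact zero_ne_one⟩,
        ?_, ?_⟩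
      · rw [hr0 _ (by rw [Equiv.apply_symm_apply])]
        exact hx
      · rw [Equiv.apply_symm_apply]
    exact all_of_cofinite T S hS s
      (cofinite_of_push T g hg s hx (push_univ_of_line T n hn r _ hr h0))
  · intro hQ n _ hn r t _ hr
    obtain ⟨p, hp, _⟩ := hr
    exact hQ _ (B.hyp_curve n hn) r ⟨p, hp⟩
  · intro h S hS s hs
    rcases T.alg_curve hS s with h1 | h1
    · exact h1
    obtain ⟨x, hx⟩ := hs
    obtain ⟨g, hg⟩ := exists_belyi S hS x (h1 hx)
    have hg' := bad_four g hg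
    obtain ⟨m, hm, hext⟩ := T.extend_hyp g hg hg' s
    obtain ⟨n, hnN, hn, hmn⟩ := hN m hm
    obtain ⟨r, hr, hr0⟩ := hext n hn hmn
    have h0 : T.Alg r = Set.univ := by
      refine h n hnN hn r _ hr ⟨(B.hypPt n).symm ⟨(0, 1), by
        simp [zero_pow (by omega : n ≠ 0)]⟩, ?_, ?_⟩
      · rw [hr0 _ (by rw [Equiv.apply_symm_apply])]
        exact hx
      · rw [Equiv.apply_symm_apply]
    exact all_of_cofinite T S hS s
      (cofinite_of_push T _ hg' s hx (push_univ_of_hyp T n hn r _ hr h0))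
  · intro hQ S s x hx y hy hxs
    obtain ⟨C, p, x', y', hC, hx', hy'⟩ := B.join S x hx y hy
    have h1 : T.Alg (T.pull p s) = Set.univ := by
      refine hQ C hC _ ⟨x', ?_⟩
      rw [T.alg_pull, hx']
      exact hxs
    have h2 : y' ∈ T.Alg (T.pull p s) := by rw [h1]; exact Set.mem_univ _
    rw [T.alg_pull, hy'] at h2
    exact h2

end Pool.Agent.Work.MP_298761_h79.BelyiBases
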